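import Mathlib
import Pool.Agent.Helper43.Gm.Goals

set_option autoImplicit false

namespace Pool.Agent.Helper43.Gm.PkE1

open Finset Pool.Agent.Lead.Sh Pool.Agent.Helper43.Gm

lemma st_congr {κ κ' : ℕ → ℕ} {c z : ℕ} (h : ∀ y ≤ z, κ y = κ' y) : st κ c z = st κ' c z := by
  unfold st
  congr 1
  apply filter_congr
  intro y hy
  rw [h y (mem_range.1 hy).le]

lemma mv_congr {κ κ' x x' ν : ℕ → ℕ} {c z : ℕ} (h : ∀ y ≤ z, κ y = κ' y)
    (h' : ∀ y ≤ z, x y = x' y) : mv κ x ν c z = mv κ' x' ν c z := by
  unfold mv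
  apply filter_congr
  intro y hy
  rw [h y (mem_range.1 hy).le, h' y (mem_range.1 hy).le]

lemma nn_congr {κ κ' x x' ν : ℕ → ℕ} {c z : ℕ} (h : ∀ y ≤ z, κ y = κ' y)
    (h' : ∀ y ≤ z, x y = x' y) : nn κ x ν c z = nn κ' x' ν c z := by
  unfold nn
  rw [h z le_rfl, h' z le_rfl, st_congr h, mv_congr h h']

lemma st_le (κ : ℕ → ℕ) (c z : ℕ) : st κ c z ≤ z := by
  unfold st
  calc ((range z).filter (fun y => κ y ≤ c)).card ≤ (range z).card := card_filter_le _ _
    _ = z := card_range z

lemma st_succ {κ : ℕ → ℕ} {c z : ℕ} (h : c < κ z) : st κ c (z + 1) = st κ c z := by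
  unfold st
  rw [range_add_one, filter_insert, if_neg (by omega)]

lemma mv_sub (κ x ν : ℕ → ℕ) (c z : ℕ) : mv κ x ν c z ⊆ mv κ x ν c (z + 1) := by
  intro y hy
  simp only [mv, mem_filter, mem_range] at hy ⊢
  omega

lemma nn_drop {κ x ν : ℕ → ℕ} {c z : ℕ} (h : c < κ z) (h' : c < κ (z + 1)) :
    nn κ x ν c (z + 1) ≤ nn κ x ν c z - 1 := by
  unfold nn
  rw [if_neg (by omega), if_neg (by omega), if_neg (by omega), if_neg (by omega), st_succ h]
  have h1 := card_le_card (mv_sub κ x ν c z)
  have h2 := st_le κ c z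
  omega

lemma nn_le_nu {κ x ν : ℕ → ℕ} {c z : ℕ} (h' : c < κ z) : nn κ x ν c z ≤ ν c := by
  unfold nn
  rw [if_neg (by omega), if_neg (by omega)]
  omega

lemma sum_le_SS (κ x ν : ℕ → ℕ) (K z : ℕ) : ∑ c ∈ range K, nn κ x ν c z ≤ SS κ x ν z := by
  unfold SS
  apply sum_le_sum_of_ne_zero
  intro c hc hne
  rw [mem_range]
  by_contra hcon
  apply hne
  unfold nn
  rw [if_pos (by omega)]

/-- the sum of the first `K` points -/
lemma sum_drop {κ x ν : ℕ → ℕ} {K z : ℕ} (h : κ z = K) (h' : κ (z + 1) = K) :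
    ∑ c ∈ range K, nn κ x ν c (z + 1) ≤ ∑ c ∈ range K, nn κ x ν c z - 1 := by
  by_cases h0 : ∃ c ∈ range K, 0 < nn κ x ν c z
  · obtain ⟨c, hc, hpos⟩ := h0
    have : ∑ c ∈ range K, nn κ x ν c (z + 1) < ∑ c ∈ range K, nn κ x ν c z := by
      apply sum_lt_sum
      · intro i hi
        have := nn_drop (κ := κ) (x := x) (ν := ν) (c := i) (z := z)
          (by rw [h]; exact mem_range.1 hi) (by rw [h']; exact mem_range.1 hi)
        omega
      · refine ⟨c, hc, ?_⟩
        have := nn_drop (κ := κ) (x := x) (ν := ν) (c := c) (z := z)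
          (by rw [h]; exact mem_range.1 hc) (by rw [h']; exact mem_range.1 hc)
        omega
    omega
  · push Not at h0
    have hz : ∑ c ∈ range K, nn κ x ν c (z + 1) = 0 := by
      apply sum_eq_zero
      intro i hi
      have := nn_drop (κ := κ) (x := x) (ν := ν) (c := i) (z := z)
          (by rw [h]; exact mem_range.1 hi) (by rw [h']; exact mem_range.1 hi)
      have := h0 i hi
      omega
    omega

lemma mono_le {M R : ℕ} {ν κ x : ℕ → ℕ} (hR : Run M R ν κ x) {y z : ℕ} (hyz : y ≤ z)
    (hz : z < R) : κ y ≤ κ z := by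
  induction z with
  | zero =>
    have : y = 0 := by omega
    rw [this]
  | succ z ih =>
    rcases Nat.lt_or_ge y (z + 1) with h | h
    · exact (ih (by omega) (by omega)).trans (hR.mono z hz)
    · have : y = z + 1 := by omega
      rw [this]

lemma pos_up {M R : ℕ} {ν κ x : ℕ → ℕ} (hR : Run M R ν κ x) {y z : ℕ} (hyz : y ≤ z)
    (hz : z < R) (hx : 0 < x y) (he : κ z ≤ κ y) : 0 < x z := by
  induction z with
  | zero =>
    have h0 : y = 0 := by omega
    subst h0
    exact hx
  | succ z ih =>
    rcases Nat.lt_or_ge y (z + 1) with h | h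
    · have h1 := mono_le hR (y := y) (z := z) (by omega) (by omega)
      have h2 := hR.mono z hz
      have h3 := ih (by omega) (by omega) (by omega)
      have := hR.inc z hz h3 (by omega)
      omega
    · have h0 : y = z + 1 := by omega
      subst h0
      exact hx

lemma two_sum_tri (S m : ℕ) : 2 * ∑ t ∈ range m, (S - 1 - t) ≤ S * (S - 1) := by
  -- S - 1 - t truncated
  have key : ∀ n : ℕ, ∀ m : ℕ, 2 * ∑ t ∈ range m, (n - t) ≤ (n + 1) * n := by
    intro n
    induction n with
    | zero => intro m; simp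
    | succ n ih =>
      intro m
      rcases m with _ | m
      · simp
      · rw [sum_range_succ']
        have h1 : ∑ k ∈ range m, (n + 1 - (k + 1)) = ∑ k ∈ range m, (n - k) := by
          apply sum_congr rfl
          intro k _
          omega
        rw [h1, Nat.sub_zero]
        have h2 := ih m
        have h3 : (n + 1 + 1) * (n + 1) = (n + 1) * n + 2 * (n + 1) := by ring
        omega
  rcases S with _ | S
  · simp
  · have := key S m
    simpa using this

theorem goalE1 (hB : GoalB) (hC : GoalC) (hD : GoalD) : GoalE1 := by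
  intro M R ν ℓ Bd hM hR hν1 hνM h0 hdrop hgood W N hW hsum
  obtain ⟨κ, x, hrun, hSS, hBd, hE⟩ := hD M R ν ℓ Bd hM hν1 hνM h0 hdrop hgood
  obtain ⟨π, ε, hpri⟩ := hB M R ν κ x hrun
  set K : ℕ := κ (R - 1) + (if 0 < x (R - 1) then 1 else 0) with hK
  have hK1 : κ (R - 1) ≤ K := by rw [hK]; omega
  -- the extension
  set κ' : ℕ → ℕ := fun y => if y < R then κ y else K with hκ'
  set x' : ℕ → ℕ := fun y => if y < R then x y else 0 with hx'
  have ek : ∀ y, y < R → κ' y = κ y := fun y hy => by rw [hκ']; simp [hy]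
  have ex : ∀ y, y < R → x' y = x y := fun y hy => by rw [hx']; simp [hy]
  have ek2 : ∀ y, R ≤ y → κ' y = K := fun y hy => by
    rw [hκ']; simp [Nat.not_lt.2 hy]
  have ex2 : ∀ y, R ≤ y → x' y = 0 := fun y hy => by
    rw [hx']; simp [Nat.not_lt.2 hy]
  have hrun' : Run M (R + M) ν κ' x' := by
    refine ⟨hν1, hνM, ?_, ?_, ?_⟩
    · intro y hy
      rcases Nat.lt_trichotomy (y + 1) R with h | h | h
      · rw [ek y (by omega), ek (y + 1) h]; exact hrun.mono y h
      · rw [ek y (by omega), ek2 (y + 1) (by omega)]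
        have : y = R - 1 := by omega
        rw [this]; exact hK1
      · rw [ek2 y (by omega), ek2 (y + 1) (by omega)]
    · intro y hy
      rcases Nat.lt_or_ge y R with h | h
      · rw [ek y h, ex y h]; exact hrun.le y h
      · rw [ex2 y h]; omega
    · intro y hy hpos heq
      rcases Nat.lt_trichotomy (y + 1) R with h | h | h
      · rw [ek y (by omega), ek (y + 1) h] at heq
        rw [ex y (by omega)] at hpos ⊢
        rw [ex (y + 1) h]
        exact hrun.inc y h hpos heq
      · exfalso
        rw [ek y (by omega), ek2 (y + 1) (by omega)] at heq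
        rw [ex y (by omega)] at hpos
        have : y = R - 1 := by omega
        rw [this] at hpos heq
        rw [hK, if_pos hpos] at heq
        omega
      · rw [ex2 y (by omega)] at hpos
        omega
  have hcomp : ∀ c ∈ range K, ∑ y ∈ range (R + M), nn κ' x' ν c y = (ν c + 1).choose 2 := by
    intro c hc
    exact hC M (R + M) ν κ' x' hrun' c R (by omega) (by rw [ek2 R le_rfl]; exact mem_range.1 hc)
      le_rfl
  have hnn : ∀ c y, y < R → nn κ' x' ν c y = nn κ x ν c y := by
    intro c y hy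
    exact nn_congr (fun z hz => ek z (by omega)) (fun z hz => ex z (by omega))
  -- total
  have htot : ∑ c ∈ range K, (ν c + 1).choose 2
      = ∑ y ∈ range R, ∑ c ∈ range K, nn κ' x' ν c y
        + ∑ t ∈ range M, ∑ c ∈ range K, nn κ' x' ν c (R + t) := by
    rw [← sum_congr rfl hcomp, sum_comm, sum_range_add (fun y => ∑ c ∈ range K, nn κ' x' ν c y)]
  have hpart1 : ∑ y ∈ range R, ∑ c ∈ range K, nn κ' x' ν c y ≤ ∑ y ∈ range R, SS κ x ν y := by
    apply sum_le_sum
    intro y hy
    rw [sum_congr rfl (fun c _ => hnn c y (mem_range.1 hy))]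
    exact sum_le_SS κ x ν K y
  have hSSsum : ∑ y ∈ range R, SS κ x ν y
      = ∑ y ∈ range R, ℓ y + ∑ y ∈ range R, (SS κ x ν y - ℓ y) := by
    rw [← sum_add_distrib]
    apply sum_congr rfl
    intro y hy
    have := (hSS y (mem_range.1 hy)).1
    omega
  have hdropT : ∀ t, ∑ c ∈ range K, nn κ' x' ν c (R + (t + 1))
      ≤ ∑ c ∈ range K, nn κ' x' ν c (R + t) - 1 := by
    intro t
    have := sum_drop (κ := κ') (x := x') (ν := ν) (K := K) (z := R + t) (ek2 _ (by omega))
      (ek2 _ (by omega))
    exact this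
  have hT0 : ∑ c ∈ range K, nn κ' x' ν c (R + 0) ≤ SS κ x ν (R - 1) + M := by
    -- split off the last point
    have hlow : ∑ c ∈ range (κ (R - 1)), nn κ' x' ν c (R + 0)
        ≤ ∑ c ∈ range (κ (R - 1)), nn κ x ν c (R - 1) := by
      apply sum_le_sum
      intro c hc
      have h1 := nn_drop (κ := κ') (x := x') (ν := ν) (c := c) (z := R - 1)
        (by rw [ek (R - 1) (by omega)]; exact mem_range.1 hc)
        (by rw [ek2 (R - 1 + 1) (by omega)]; exact lt_of_lt_of_le (mem_range.1 hc) hK1)
      have h2 : R - 1 + 1 = R + 0 := by omega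
      rw [h2, hnn c (R - 1) (by omega)] at h1
      omega
    have hlow2 := sum_le_SS κ x ν (κ (R - 1)) (R - 1)
    by_cases hp : 0 < x (R - 1)
    · have hKe : K = κ (R - 1) + 1 := by rw [hK, if_pos hp]
      rw [hKe, sum_range_succ]
      have h1 : nn κ' x' ν (κ (R - 1)) (R + 0) ≤ ν (κ (R - 1)) :=
        nn_le_nu (by rw [ek2 _ (by omega), hKe]; omega)
      have h2 := hνM (κ (R - 1))
      omega
    · have hKe : K = κ (R - 1) := by rw [hK, if_neg hp]; rfl
      rw [hKe]
      omega
  have hbound : 2 * ∑ c ∈ range K, (ν c + 1).choose 2 ≤ 2 * (∑ y ∈ range R, ℓ y + W) := by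
    have hr := (hSS (R - 1) (by omega)).2
    rcases hW with ⟨hmem, hW⟩ | hW
    · -- the last row is bad
      have hx0 := hBd (R - 1) (by omega) hmem
      have hKe : K = κ (R - 1) := by rw [hK, if_neg (by omega)]; rfl
      have hT : ∀ t, ∑ c ∈ range K, nn κ' x' ν c (R + t) ≤ SS κ x ν (R - 1) - 1 - t := by
        intro t
        induction t with
        | zero =>
          have h1 := sum_drop (κ := κ') (x := x') (ν := ν) (K := K) (z := R - 1)
            (by rw [ek (R - 1) (by omega), hKe]) (ek2 _ (by omega))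
          have h2 : R - 1 + 1 = R + 0 := by omega
          rw [h2, sum_congr rfl (fun c _ => hnn c (R - 1) (by omega))] at h1
          have h3 := sum_le_SS κ x ν K (R - 1)
          omega
        | succ t ih =>
          have := hdropT t
          omega
      have hTs : ∑ t ∈ range M, ∑ c ∈ range K, nn κ' x' ν c (R + t)
          ≤ ∑ t ∈ range M, (SS κ x ν (R - 1) - 1 - t) := sum_le_sum (fun t _ => hT t)
      have h4 := two_sum_tri (SS κ x ν (R - 1)) M
      have h5 : SS κ x ν (R - 1) * (SS κ x ν (R - 1) - 1)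
          ≤ (ℓ (R - 1) + M) * (ℓ (R - 1) + M - 1) := Nat.mul_le_mul hr (by omega)
      omega
    · have hT : ∀ t, ∑ c ∈ range K, nn κ' x' ν c (R + t) ≤ ℓ (R - 1) + 2 * M := by
        intro t
        induction t with
        | zero => omega
        | succ t ih =>
          have := hdropT t
          omega
      have hTs : ∑ t ∈ range M, ∑ c ∈ range K, nn κ' x' ν c (R + t)
          ≤ M * (ℓ (R - 1) + 2 * M) := by
        calc _ ≤ ∑ t ∈ range M, (ℓ (R - 1) + 2 * M) := sum_le_sum (fun t _ => hT t)
          _ = M * (ℓ (R - 1) + 2 * M) := by simp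
      have h6 : 2 * M * (ℓ (R - 1) + 2 * M) = 2 * (M * (ℓ (R - 1) + 2 * M)) := by ring
      omega
  have hKN : K ≤ N := by
    by_contra hcon
    push Not at hcon
    have h1 : ∑ c ∈ range (N + 1), (ν c + 1).choose 2 ≤ ∑ c ∈ range K, (ν c + 1).choose 2 := by
      apply sum_le_sum_of_subset
      intro c hc
      rw [mem_range] at hc ⊢
      omega
    rw [sum_range_succ] at h1
    have h2 : 0 < (ν N + 1).choose 2 := by
      apply Nat.choose_pos
      have := hν1 N
      omega
    omega
  refine ⟨nn κ x ν, π, ε, hpri N, ?_⟩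
  intro y hy
  refine (hSS y hy).1.trans ?_
  unfold SS
  have hky : κ y ≤ κ (R - 1) := mono_le hrun (by omega) (by omega)
  rcases Nat.lt_or_ge (κ y) N with h | h
  · apply sum_le_sum_of_subset
    intro c hc
    rw [mem_range] at hc ⊢
    omega
  · -- N = κ y
    have hN : N = κ y := by omega
    have hxR : x (R - 1) = 0 := by
      by_contra hne
      have : K = κ (R - 1) + 1 := by rw [hK, if_pos (by omega)]
      omega
    have hxy : x y = 0 := by
      by_contra hne
      have := pos_up hrun (y := y) (z := R - 1) (by omega) (by omega) (by omega) (by omega)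
      omega
    rw [sum_range_succ, hN]
    have : nn κ x ν (κ y) y = 0 := by
      unfold nn
      rw [if_neg (by omega), if_pos rfl]
      exact hxy
    omega

end Pool.Agent.Helper43.Gm.PkE1
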